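import Pool.Agent.H110R3.UF.Stmts

open CategoryTheory MonoidalCategory CategoryTheory.Limits

universe v u

namespace Pool.Agent.H770.UF

open Pool.Agent.H110R3.UF

theorem taskDual : TaskDual.{v, u} := by
  intro C _ _ _ n S dl coef hself hne hcoef heq X hX N B
  obtain ⟨m, s, inc, prj, hortho, htot⟩ := hX
  -- composition of the dl
  have hdd : ∀ a b, dl a b ≫ dl b a = if a = b then 𝟙 (S a) else 0 := by
    intro a b
    by_cases h : a = b
    · subst h
      simp [hself]
    · rw [if_neg h, hne a b h, Limits.zero_comp]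
  have hdd2 : ∀ a b, a ≠ b → dl a b ≫ dl b a = 0 := by
    intro a b h
    rw [hdd, if_neg h]
  refine ⟨fun c k => ∑ i, ((B c).coord k (dl c (s i) ≫ inc i)) • (prj i ≫ dl (s i) c), ?_, ?_⟩
  · intro c k c' k'
    by_cases h : c = c'
    · subst h
      have key : ∀ i, B c k ≫ prj i ≫ dl (s i) c =
          (coef c (s i) (B c k ≫ prj i)) • (dl c (s i) ≫ dl (s i) c) := by
        intro i
        rw [← Category.assoc]
        conv_lhs => rw [heq c (s i) (B c k ≫ prj i)]
        rw [Linear.smul_comp]
      have hexp : B c k = ∑ i, (coef c (s i) (B c k ≫ prj i)) • (dl c (s i) ≫ inc i) := by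
        calc B c k = B c k ≫ 𝟙 X := (Category.comp_id _).symm
          _ = B c k ≫ ∑ i, prj i ≫ inc i := by rw [htot]
          _ = ∑ i, B c k ≫ prj i ≫ inc i := by rw [Preadditive.comp_sum]
          _ = _ := by
            refine Finset.sum_congr rfl fun i _ => ?_
            rw [← Category.assoc]
            conv_lhs => rw [heq c (s i) (B c k ≫ prj i)]
            rw [Linear.smul_comp]
      have hcoord : (B c).coord k' (B c k) =
          ∑ i, (coef c (s i) (B c k ≫ prj i)) * (B c).coord k' (dl c (s i) ≫ inc i) := by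
        conv_lhs => rw [hexp]
        rw [map_sum]
        refine Finset.sum_congr rfl fun i _ => ?_
        rw [map_smul, smul_eq_mul]
      have hval : (B c).coord k' (B c k) = if k = k' then 1 else 0 := by
        rw [Module.Basis.coord_apply, Module.Basis.repr_self, Finsupp.single_apply]
      rw [Preadditive.comp_sum]
      have step : ∀ i, B c k ≫ (((B c).coord k' (dl c (s i) ≫ inc i)) • (prj i ≫ dl (s i) c)) =
          ((coef c (s i) (B c k ≫ prj i)) * (B c).coord k' (dl c (s i) ≫ inc i)) • 𝟙 (S c) := by
        intro i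
        rw [Linear.comp_smul, key, hdd, smul_smul, mul_comm]
        by_cases h : c = s i
        · rw [if_pos h]
        · rw [if_neg h, hne c (s i) h]
          simp
      rw [Finset.sum_congr rfl fun i _ => step i, ← Finset.sum_smul, ← hcoord, hval, hself]
      by_cases hk : k = k'
      · subst hk
        simp
      · rw [if_neg hk, zero_smul, if_neg]
        intro h
        apply hk
        simpa using h
    · rw [if_neg (by intro h'; exact h (congrArg Sigma.fst h'))]
      rw [heq c c' (B c k ≫ _), hne c c' h, smul_zero]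
  · have h1 : ∀ p : Σ c, Fin (N c),
        (∑ i, ((B p.1).coord p.2 (dl p.1 (s i) ≫ inc i)) • (prj i ≫ dl (s i) p.1)) ≫ B p.1 p.2 =
        ∑ i, prj i ≫ dl (s i) p.1 ≫
          (((B p.1).coord p.2 (dl p.1 (s i) ≫ inc i)) • B p.1 p.2) := by
      intro p
      rw [Preadditive.sum_comp]
      refine Finset.sum_congr rfl fun i _ => ?_
      rw [Linear.smul_comp, Linear.comp_smul, Linear.comp_smul, Category.assoc]
    rw [Finset.sum_congr rfl fun p _ => h1 p, Finset.sum_comm]
    have h2 : ∀ i, ∑ p : Σ c, Fin (N c), prj i ≫ dl (s i) p.1 ≫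
          (((B p.1).coord p.2 (dl p.1 (s i) ≫ inc i)) • B p.1 p.2) = prj i ≫ inc i := by
      intro i
      rw [Fintype.sum_sigma]
      have h3 : ∀ c, ∑ k : Fin (N c), prj i ≫ dl (s i) c ≫
          (((B c).coord k (dl c (s i) ≫ inc i)) • B c k) =
          prj i ≫ dl (s i) c ≫ dl c (s i) ≫ inc i := by
        intro c
        rw [← Preadditive.comp_sum, ← Preadditive.comp_sum]
        congr 2
        exact (B c).sum_repr (dl c (s i) ≫ inc i)
      rw [Finset.sum_congr rfl fun c _ => h3 c]
      rw [Finset.sum_eq_single (s i)]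
      · rw [← Category.assoc (dl (s i) (s i)), hdd, if_pos rfl, Category.id_comp]
      · intro c _ hc
        rw [← Category.assoc (dl (s i) c), hdd, if_neg (Ne.symm hc), Limits.zero_comp,
          Limits.comp_zero]
      · intro h
        exact absurd (Finset.mem_univ _) h
    rw [Finset.sum_congr rfl fun i _ => h2 i, htot]

end Pool.Agent.H770.UF
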